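import Mathlib

/-!
# Volumes of sums of a convex body and a segment

`vol (X + [0, n p]) = vol X + n (vol (X + [0, p]) - vol X)`, and the increment
`G X p = vol (X + [0, p]) - vol X` is monotone in `X` and depends only on the shadow of `X` along `p`.
-/

set_option autoImplicit false

open MeasureTheory Set Metric
open scoped Pointwise

namespace Pool.Agent.K7.H39.Cube

abbrev E3 := EuclideanSpace ℝ (Fin 3)

/-- the segment `{s p | a ≤ s ≤ b}` -/
def Sg (p : E3) (a b : ℝ) : Set E3 := (fun s : ℝ => s • p) '' Icc a b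

/-- volume as a real number -/
noncomputable def vol (X : Set E3) : ℝ := (volume X).toReal

/-- increment of the volume -/
noncomputable def G (X : Set E3) (p : E3) : ℝ := vol (X + Sg p 0 1) - vol X

theorem Sg_compact (p : E3) (a b : ℝ) : IsCompact (Sg p a b) :=
  isCompact_Icc.image (by fun_prop)

theorem Sg_convex (p : E3) (a b : ℝ) : Convex ℝ (Sg p a b) := by
  have : Sg p a b = (LinearMap.toSpanSingleton ℝ E3 p) '' Icc a b := rfl
  rw [this]
  exact (convex_Icc a b).linear_image _

theorem Sg_zero_one (p : E3) : Sg p 0 1 = segment ℝ 0 p := by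
  rw [segment_eq_image]
  unfold Sg
  ext x
  simp

theorem vol_translate (X : Set E3) (v : E3) : vol (X + {v}) = vol X := by
  unfold vol
  congr 1
  rw [add_singleton]
  have : (fun x => x + v) '' X = v +ᵥ X := by
    ext x
    rw [Set.mem_vadd_set]
    constructor
    · rintro ⟨y, hy, rfl⟩
      exact ⟨y, hy, add_comm _ _⟩
    · rintro ⟨y, hy, rfl⟩
      exact ⟨y, hy, add_comm _ _⟩
  rw [this, measure_vadd]

theorem Sg_shift (p : E3) (a b c : ℝ) : Sg p (a + c) (b + c) = Sg p a b + {c • p} := by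
  ext x
  simp only [Sg, add_singleton, mem_image, mem_Icc]
  constructor
  · rintro ⟨s, ⟨h1, h2⟩, rfl⟩
    refine ⟨(s - c) • p, ⟨s - c, ⟨by linarith, by linarith⟩, rfl⟩, ?_⟩
    rw [← add_smul]; congr 1; ring
  · rintro ⟨y, ⟨s, ⟨h1, h2⟩, rfl⟩, rfl⟩
    exact ⟨s + c, ⟨by linarith, by linarith⟩, add_smul _ _ _⟩

theorem Sg_add (p : E3) {a b c d : ℝ} (hab : a ≤ b) (hcd : c ≤ d) :
    Sg p a b + Sg p c d = Sg p (a + c) (b + d) := by
  ext x
  simp only [Sg, mem_add, mem_image, mem_Icc]
  constructor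
  · rintro ⟨y, ⟨s, ⟨h1, h2⟩, rfl⟩, z, ⟨t, ⟨h3, h4⟩, rfl⟩, rfl⟩
    exact ⟨s + t, ⟨by linarith, by linarith⟩, add_smul _ _ _⟩
  · rintro ⟨s, ⟨h1, h2⟩, rfl⟩
    have h5 : max a (s - d) ≤ b := max_le hab (by linarith)
    refine ⟨max a (s - d) • p, ⟨max a (s - d), ⟨le_max_left _ _, h5⟩, rfl⟩,
      (s - max a (s - d)) • p, ⟨s - max a (s - d), ⟨?_, ?_⟩, rfl⟩, ?_⟩
    · rcases le_total a (s - d) with h | h
      · rw [max_eq_right h]; linarith
      · rw [max_eq_left h]; linarith
    · have := le_max_right a (s - d)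
      linarith
    · rw [← add_smul]; congr 1; ring

theorem vol_add_Sg_succ {X : Set E3} (hX : IsCompact X) (hc : Convex ℝ X) (p : E3) (n : ℕ) :
    vol (X + Sg p 0 (n + 1)) + vol X = vol (X + Sg p 0 n) + vol (X + Sg p 0 1) := by
  have hn : (0 : ℝ) ≤ n := Nat.cast_nonneg n
  have h1 : X + Sg p 0 (n + 1) = (X + Sg p 0 n) ∪ (X + Sg p n (n + 1)) := by
    rw [← add_union]
    congr 1
    unfold Sg
    rw [← image_union, Icc_union_Icc_eq_Icc hn (by linarith)]
  have h2 : (X + Sg p 0 n) ∩ (X + Sg p n (n + 1)) = X + {(n : ℝ) • p} := by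
    ext x
    constructor
    · rintro ⟨⟨y, hy, z, ⟨s, hs, hz⟩, hyz⟩, ⟨y', hy', z', ⟨s', hs', hz'⟩, hyz'⟩⟩
      simp only at hz hz' hyz hyz'
      subst hz hz'
      rw [add_singleton]
      refine ⟨x - (n : ℝ) • p, ?_, by simp⟩
      have e1 : y = x - s • p := by rw [← hyz]; simp
      have e2 : y' = x - s' • p := by rw [← hyz']; simp
      rcases eq_or_lt_of_le (show s ≤ s' from hs.2.trans hs'.1) with h | h
      · have : s = n := le_antisymm hs.2 (by rw [h]; exact hs'.1)
        rw [← this, ← e1]; exact hy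
      · have hd : 0 < s' - s := by linarith
        have h3 := hc hy hy' (a := (s' - n) / (s' - s)) (b := (n - s) / (s' - s))
          (div_nonneg (by linarith [hs'.1]) hd.le) (div_nonneg (by linarith [hs.2]) hd.le)
          (by field_simp; ring)
        convert h3 using 1
        rw [e1, e2, smul_sub, smul_sub, smul_smul, smul_smul]
        have e3 : ((s' - n) / (s' - s)) • x + ((n - s) / (s' - s)) • x = x := by
          rw [← add_smul]
          have : (s' - n) / (s' - s) + (n - s) / (s' - s) = 1 := by field_simp; ring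
          rw [this, one_smul]
        have e4 : ((s' - n) / (s' - s) * s) • p + ((n - s) / (s' - s) * s') • p = (n : ℝ) • p := by
          rw [← add_smul]
          congr 1
          field_simp
          ring
        calc x - (n : ℝ) • p = (((s' - n) / (s' - s)) • x + ((n - s) / (s' - s)) • x) -
            (((s' - n) / (s' - s) * s) • p + ((n - s) / (s' - s) * s') • p) := by rw [e3, e4]
          _ = _ := by abel
    · rw [add_singleton]
      rintro ⟨y, hy, rfl⟩
      exact ⟨⟨y, hy, (n : ℝ) • p, ⟨n, ⟨hn, le_rfl⟩, rfl⟩, rfl⟩,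
        ⟨y, hy, (n : ℝ) • p, ⟨n, ⟨le_rfl, by linarith⟩, rfl⟩, rfl⟩⟩
  have hA : IsCompact (X + Sg p 0 n) := hX.add (Sg_compact _ _ _)
  have hB : IsCompact (X + Sg p n (n + 1)) := hX.add (Sg_compact _ _ _)
  have h3 := measureReal_union_add_inter (μ := volume) (s := X + Sg p 0 n)
    hB.measurableSet (h₁ := hA.measure_ne_top) (h₂ := hB.measure_ne_top)
  rw [← h1, h2] at h3
  have h4 : vol (X + Sg p n (n + 1)) = vol (X + Sg p 0 1) := by
    have : Sg p n (n + 1) = Sg p 0 1 + {(n : ℝ) • p} := by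
      rw [← Sg_shift]; congr 1 <;> ring
    rw [this, ← add_assoc, vol_translate]
  have h5 : vol (X + {(n : ℝ) • p}) = vol X := vol_translate X _
  simp only [measureReal_def] at h3
  unfold vol at *
  rw [h5, h4] at h3
  exact h3

theorem vol_add_Sg {X : Set E3} (hX : IsCompact X) (hc : Convex ℝ X) (p : E3) (n : ℕ) :
    vol (X + Sg p 0 n) = vol X + n * G X p := by
  induction n with
  | zero =>
    have : Sg p 0 ((0 : ℕ) : ℝ) = {0} := by
      unfold Sg
      simp
    rw [this, add_singleton]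
    simp
  | succ n ih =>
    have h := vol_add_Sg_succ hX hc p n
    push_cast
    rw [ih] at h
    unfold G at h ⊢
    linarith

theorem vol_mono {X Y : Set E3} (h : X ⊆ Y) (hY : IsCompact Y) : vol X ≤ vol Y :=
  ENNReal.toReal_mono hY.measure_ne_top (measure_mono h)

/-- The increment depends monotonically on the shadow along `p`. -/
theorem G_mono {X Y : Set E3} (hX : IsCompact X) (hXc : Convex ℝ X) (hY : IsCompact Y)
    (hYc : Convex ℝ Y) (p : E3) (R : ℕ) (h : X ⊆ Y + Sg p (-R) R) : G X p ≤ G Y p := by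
  have key : ∀ n : ℕ, (n : ℝ) * (G X p - G Y p) ≤ vol Y - vol X + 2 * R * G Y p := by
    intro n
    have h1 := vol_add_Sg hX hXc p n
    have h2 : vol (X + Sg p 0 n) ≤ vol (Y + Sg p 0 ((2 * R + n : ℕ) : ℝ)) := by
      have h3 : X + Sg p 0 n ⊆ Y + Sg p (-R) (R + n) := by
        have h4 : Sg p (-R) (R + n) = Sg p (-(R : ℝ)) R + Sg p 0 n := by
          rw [Sg_add p (by linarith [(Nat.cast_nonneg R : (0 : ℝ) ≤ R)]) (Nat.cast_nonneg n)]
          simp
        rw [h4, ← add_assoc]
        exact add_subset_add_right h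
      refine (vol_mono h3 (hY.add (Sg_compact _ _ _))).trans (le_of_eq ?_)
      have h5 : Sg p (-(R : ℝ)) (R + n) = Sg p 0 ((2 * R + n : ℕ) : ℝ) + {(-(R : ℝ)) • p} := by
        rw [← Sg_shift]
        congr 1
        · ring
        · push_cast; ring
      rw [h5, ← add_assoc, vol_translate]
    have h3 := vol_add_Sg hY hYc p (2 * R + n)
    rw [h1, h3] at h2
    push_cast at h2
    linarith
  by_contra hcon
  push Not at hcon
  have hpos : 0 < G X p - G Y p := by linarith
  obtain ⟨n, hn⟩ := exists_nat_gt ((vol Y - vol X + 2 * R * G Y p) / (G X p - G Y p))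
  rw [div_lt_iff₀ hpos] at hn
  exact absurd (key n) (not_le.2 hn)

theorem G_nonneg {X : Set E3} (hX : IsCompact X) (p : E3) : 0 ≤ G X p := by
  unfold G
  have h : X ⊆ X + Sg p 0 1 := by
    intro x hx
    exact ⟨x, hx, 0, ⟨0, ⟨le_rfl, zero_le_one⟩, zero_smul _ _⟩, add_zero _⟩
  have := vol_mono h (hX.add (Sg_compact _ _ _))
  linarith

end Pool.Agent.K7.H39.Cube
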