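import Pool.Agent.K7.H39.Cube.Add
import Pool.Agent.Helper872.BoxSteiner

/-!
# Steiner's formula for a box in an orthonormal frame
-/

set_option autoImplicit false

open MeasureTheory Set Metric
open scoped Pointwise

namespace Pool.Agent.K7.H39.Cube

/-- volume of the unit ball -/
noncomputable def ka (k : ℕ) : ℝ := (volume (closedBall (0 : EuclideanSpace ℝ (Fin k)) 1)).toReal

theorem ka_zero : ka 0 = 1 := by
  unfold ka
  have h1 : (Metric.closedBall (0 : EuclideanSpace ℝ (Fin 0)) 1) = univ := by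
    ext x
    simp [Subsingleton.elim x 0]
  have h2 := (PiLp.volume_preserving_toLp (Fin 0)).measure_preimage
    (s := (univ : Set (EuclideanSpace ℝ (Fin 0)))) MeasurableSet.univ.nullMeasurableSet
  rw [h1, ← h2, preimage_univ, volume_pi, Measure.pi_of_empty]
  simp

theorem ka_one : ka 1 = 2 := by
  unfold ka
  rw [EuclideanSpace.volume_closedBall]
  have hG : Real.Gamma (3 / 2) = Real.sqrt Real.pi / 2 := by
    have := Real.Gamma_add_one (s := 1 / 2) (by norm_num)
    rw [Real.Gamma_one_half_eq] at this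
    rw [show (3 / 2 : ℝ) = 1 / 2 + 1 by norm_num, this]
    ring
  have hpi : 0 < Real.sqrt Real.pi := Real.sqrt_pos.2 Real.pi_pos
  have h2 : Real.sqrt Real.pi / (Real.sqrt Real.pi / 2) = 2 := by
    field_simp
  norm_num
  rw [hG, h2, ENNReal.toReal_ofReal (by norm_num)]

theorem ka_two : ka 2 = Real.pi := by
  unfold ka
  rw [EuclideanSpace.volume_closedBall]
  have hpi : 0 ≤ Real.pi := Real.pi_pos.le
  norm_num
  rw [Real.sq_sqrt hpi]

/-- the box `[0,a] × [0,b] × [0,c]` -/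
def bx (a b c : ℝ) : Set E3 :=
  {x | (0 ≤ x 0 ∧ x 0 ≤ a) ∧ (0 ≤ x 1 ∧ x 1 ≤ b) ∧ (0 ≤ x 2 ∧ x 2 ≤ c)}

theorem coeffs (p q r : ℝ) :
    (Polynomial.X ^ 3 + Polynomial.C p * Polynomial.X ^ 2 + Polynomial.C q * Polynomial.X +
      Polynomial.C r : Polynomial ℝ).coeff 0 = r ∧
    (Polynomial.X ^ 3 + Polynomial.C p * Polynomial.X ^ 2 + Polynomial.C q * Polynomial.X +
      Polynomial.C r : Polynomial ℝ).coeff 1 = q ∧
    (Polynomial.X ^ 3 + Polynomial.C p * Polynomial.X ^ 2 + Polynomial.C q * Polynomial.X +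
      Polynomial.C r : Polynomial ℝ).coeff 2 = p ∧
    (Polynomial.X ^ 3 + Polynomial.C p * Polynomial.X ^ 2 + Polynomial.C q * Polynomial.X +
      Polynomial.C r : Polynomial ℝ).coeff 3 = 1 := by
  refine ⟨?_, ?_, ?_, ?_⟩ <;>
    simp [Polynomial.coeff_X, Polynomial.coeff_X_pow, Polynomial.coeff_C]

theorem vol_bx_add_ball {a b c t : ℝ} (ha : 0 ≤ a) (hb : 0 ≤ b) (hc : 0 ≤ c) (ht : 0 ≤ t) :
    vol (bx a b c + closedBall 0 t) = a * b * c + ka 1 * t * (a * b + b * c + c * a) +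
      ka 2 * t ^ 2 * (a + b + c) + ka 3 * t ^ 3 := by
  set u : Fin 3 → ℝ := 0 with hu
  set v : Fin 3 → ℝ := ![a, b, c] with hv
  have huv : ∀ i, u i ≤ v i := by
    intro i
    fin_cases i
    · simpa [hu, hv] using ha
    · simpa [hu, hv] using hb
    · simpa [hu, hv] using hc
  have h1 : bx a b c = {x : EuclideanSpace ℝ (Fin 3) | ∀ i, u i ≤ x i ∧ x i ≤ v i} := by
    ext x
    simp only [bx, mem_ofPred_eq, hu, hv, Fin.forall_fin_succ, Pi.zero_apply]
    simp
  rw [h1, ← Pool.Agent.Helper872.thick_eq_add, Pool.Agent.Helper872.thick_rbox huv ht]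
  have h2 := Pool.Agent.Helper872.AA_formula 3 u v huv (t ^ 2)
  unfold Pool.Agent.Helper872.AA at h2
  unfold vol
  rw [h2, ENNReal.toReal_sum]
  · simp only [ENNReal.toReal_mul]
    rw [Finset.sum_range_succ, Finset.sum_range_succ, Finset.sum_range_succ,
      Finset.sum_range_succ, Finset.sum_range_zero]
    simp only [Pool.Agent.Helper872.bb_sq _ ht, ENNReal.toReal_mul]
    have e : (∏ i, (Polynomial.X + Polynomial.C (v i - u i)) : Polynomial ℝ) =
        Polynomial.X ^ 3 + Polynomial.C (a + b + c) * Polynomial.X ^ 2 +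
          Polynomial.C (a * b + b * c + c * a) * Polynomial.X + Polynomial.C (a * b * c) := by
      rw [Fin.prod_univ_three]
      simp only [hu, hv, Pi.zero_apply, sub_zero, Matrix.cons_val_zero, Matrix.cons_val_one,
        Matrix.cons_val, Polynomial.C_add, Polynomial.C_mul]
      ring
    obtain ⟨c0, c1, c2, c3⟩ := coeffs (a + b + c) (a * b + b * c + c * a) (a * b * c)
    rw [e, c0, c1, c2, c3]
    rw [ENNReal.toReal_ofReal (by positivity), ENNReal.toReal_ofReal (by positivity),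
      ENNReal.toReal_ofReal (by positivity), ENNReal.toReal_ofReal (by positivity),
      ENNReal.toReal_ofReal (by positivity), ENNReal.toReal_ofReal (by positivity),
      ENNReal.toReal_ofReal (by positivity), ENNReal.toReal_ofReal (by positivity)]
    have k0 : (volume (closedBall (0 : EuclideanSpace ℝ (Fin 0)) 1)).toReal = 1 := ka_zero
    have k1 : (volume (closedBall (0 : EuclideanSpace ℝ (Fin 1)) 1)).toReal = ka 1 := rfl
    have k2 : (volume (closedBall (0 : EuclideanSpace ℝ (Fin 2)) 1)).toReal = ka 2 := rfl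
    have k3 : (volume (closedBall (0 : EuclideanSpace ℝ (Fin 3)) 1)).toReal = ka 3 := rfl
    rw [k0, k1, k2, k3]
    ring
  · intro k _
    rw [Pool.Agent.Helper872.bb_sq _ ht]
    exact ENNReal.mul_ne_top ENNReal.ofReal_ne_top
      (ENNReal.mul_ne_top ENNReal.ofReal_ne_top (isCompact_closedBall _ _).measure_ne_top)

/-- the box spanned by three vectors -/
def fbox (p q r : E3) : Set E3 := Sg p 0 1 + Sg q 0 1 + Sg r 0 1

theorem image_Sg (e : E3 →ₗ[ℝ] E3) (p : E3) (a b : ℝ) : e '' Sg p a b = Sg (e p) a b := by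
  unfold Sg
  rw [image_image]
  congr 1
  ext s
  simp

theorem bx_eq {a b c : ℝ} (ha : 0 ≤ a) (hb : 0 ≤ b) (hc : 0 ≤ c) :
    bx a b c = fbox (a • EuclideanSpace.single 0 1) (b • EuclideanSpace.single 1 1)
      (c • EuclideanSpace.single 2 1) := by
  have key : ∀ {a y : ℝ}, 0 ≤ a → 0 ≤ y → y ≤ a → ∃ s : ℝ, (0 ≤ s ∧ s ≤ 1) ∧ s * a = y := by
    intro a y ha h1 h2
    rcases eq_or_lt_of_le ha with h | h
    · exact ⟨0, ⟨le_rfl, zero_le_one⟩, by rw [zero_mul]; linarith⟩
    · exact ⟨y / a, ⟨by positivity, (div_le_one h).2 h2⟩, by field_simp⟩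
  ext x
  constructor
  · rintro ⟨⟨h1, h2⟩, ⟨h3, h4⟩, h5, h6⟩
    obtain ⟨s, hs, e1⟩ := key ha h1 h2
    obtain ⟨t, ht, e2⟩ := key hb h3 h4
    obtain ⟨r, hr, e3⟩ := key hc h5 h6
    refine ⟨s • (a • EuclideanSpace.single 0 1) + t • (b • EuclideanSpace.single 1 1),
      ⟨_, ⟨s, hs, rfl⟩, _, ⟨t, ht, rfl⟩, rfl⟩, _, ⟨r, hr, rfl⟩, ?_⟩
    ext i
    fin_cases i
    · simp; linarith
    · simp; linarith
    · simp; linarith
  · rintro ⟨y, ⟨y1, ⟨s, hs, rfl⟩, y2, ⟨t, ht, rfl⟩, rfl⟩, y3, ⟨r, hr, rfl⟩, rfl⟩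
    simp only [bx, mem_ofPred_eq]
    simp
    obtain ⟨s1, s2⟩ := hs
    obtain ⟨t1, t2⟩ := ht
    obtain ⟨r1, r2⟩ := hr
    refine ⟨⟨by positivity, ?_⟩, ⟨by positivity, ?_⟩, by positivity, ?_⟩
    · nlinarith
    · nlinarith
    · nlinarith

theorem image_closedBall (e : E3 ≃ₗᵢ[ℝ] E3) (t : ℝ) : e '' closedBall 0 t = closedBall 0 t := by
  rw [LinearIsometryEquiv.image_closedBall, map_zero]

theorem vol_image (e : E3 ≃ₗᵢ[ℝ] E3) (X : Set E3) : vol (e '' X) = vol X := by
  unfold vol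
  congr 1
  have h := (e.symm.measurePreserving).measure_preimage_emb
    e.symm.toHomeomorph.measurableEmbedding X
  have h2 : e.symm ⁻¹' X = e '' X := by
    ext x
    constructor
    · intro hx
      exact ⟨e.symm x, hx, by simp⟩
    · rintro ⟨y, hy, rfl⟩
      simpa using hy
  rw [← h2]
  exact h

/-- Steiner's formula for a box in an orthonormal frame. -/
theorem vol_frame (v : OrthonormalBasis (Fin 3) ℝ E3) {a b c t : ℝ} (ha : 0 ≤ a) (hb : 0 ≤ b)
    (hc : 0 ≤ c) (ht : 0 ≤ t) :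
    vol (fbox (a • v 0) (b • v 1) (c • v 2) + closedBall 0 t) =
      a * b * c + ka 1 * t * (a * b + b * c + c * a) + ka 2 * t ^ 2 * (a + b + c) +
        ka 3 * t ^ 3 := by
  rw [← vol_bx_add_ball ha hb hc ht, ← vol_image v.repr.symm (bx a b c + closedBall 0 t)]
  congr 1
  have h1 : (v.repr.symm '' (bx a b c + closedBall 0 t)) =
      v.repr.symm '' (bx a b c) + v.repr.symm '' closedBall 0 t := image_add _
  rw [h1, image_closedBall, bx_eq ha hb hc]
  congr 1
  have h2 : ∀ X Y : Set E3, (v.repr.symm '' (X + Y)) = v.repr.symm '' X + v.repr.symm '' Y :=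
    fun X Y => image_add _
  have h3 : ∀ p : E3, v.repr.symm '' Sg p 0 1 = Sg (v.repr.symm p) 0 1 :=
    fun p => image_Sg (v.repr.symm.toLinearEquiv : E3 →ₗ[ℝ] E3) p 0 1
  unfold fbox
  rw [h2, h2, h3, h3, h3]
  simp

end Pool.Agent.K7.H39.Cube
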