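import Pool.Agent.K7.H39.Cube.Box

/-!
# Parallel bodies of flat convex sets, one generator at a time
-/

set_option autoImplicit false

open MeasureTheory Set Metric
open scoped Pointwise

namespace Pool.Agent.K7.H39.Cube

theorem Sg_smul (p : E3) {c : ℝ} (hc : 0 ≤ c) : Sg (c • p) 0 1 = Sg p 0 c := by
  ext x
  constructor
  · rintro ⟨s, ⟨h1, h2⟩, rfl⟩
    refine ⟨s * c, ⟨by positivity, by nlinarith⟩, ?_⟩
    simp only [smul_smul]
  · rintro ⟨s, ⟨h1, h2⟩, rfl⟩
    rcases eq_or_lt_of_le hc with h | h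
    · have : s = 0 := le_antisymm (by linarith) h1
      refine ⟨0, ⟨le_rfl, zero_le_one⟩, ?_⟩
      simp [this]
    · refine ⟨s / c, ⟨by positivity, (div_le_one h).2 h2⟩, ?_⟩
      simp only [smul_smul]
      rw [div_mul_cancel₀ _ h.ne']

theorem Sg_zero_vec : Sg (0 : E3) 0 1 = 0 := by
  ext x
  constructor
  · rintro ⟨s, -, rfl⟩
    simp
  · intro hx
    have : x = 0 := hx
    exact ⟨0, ⟨le_rfl, zero_le_one⟩, by simp [this]⟩

theorem G_translate (X : Set E3) (v p : E3) : G (X + {v}) p = G X p := by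
  unfold G
  rw [vol_translate]
  have : X + {v} + Sg p 0 1 = X + Sg p 0 1 + {v} := add_right_comm _ _ _
  rw [this, vol_translate]

theorem G_eq_of_shadow {X Y : Set E3} (hX : IsCompact X) (hXc : Convex ℝ X) (hY : IsCompact Y)
    (hYc : Convex ℝ Y) (p : E3) (R : ℕ) (h : X ⊆ Y + Sg p (-R) R) (h' : Y ⊆ X + Sg p (-R) R)
    {C : Set E3} (hC : IsCompact C) (hCc : Convex ℝ C) :
    G (X + C) p = G (Y + C) p := by
  apply le_antisymm
  · apply G_mono (hX.add hC) (hXc.add hCc) (hY.add hC) (hYc.add hCc) p R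
    have : Y + C + Sg p (-R) R = Y + Sg p (-R) R + C := by
      rw [add_assoc, add_comm C, ← add_assoc]
    rw [this]
    exact add_subset_add_right h
  · apply G_mono (hY.add hC) (hYc.add hCc) (hX.add hC) (hXc.add hCc) p R
    have : X + C + Sg p (-R) R = X + Sg p (-R) R + C := by
      rw [add_assoc, add_comm C, ← add_assoc]
    rw [this]
    exact add_subset_add_right h'

theorem closedBall_zero_eq : closedBall (0 : E3) 0 = 0 := by
  rw [Metric.closedBall_zero]; rfl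

theorem exists_frame {u p : E3} (hu : ‖u‖ = 1) (hp : ‖p‖ = 1) (hup : inner ℝ u p = 0) :
    ∃ v : OrthonormalBasis (Fin 3) ℝ E3, v 0 = u ∧ v 1 = p := by
  let w : Fin 3 → E3 := ![u, p, 0]
  have hpu : inner ℝ p u = 0 := by rw [real_inner_comm]; exact hup
  have h : Orthonormal ℝ (({0, 1} : Set (Fin 3)).domRestrict w) := by
    constructor
    · rintro ⟨i, hi⟩
      rcases hi with rfl | hi
      · simpa [w] using hu
      · rw [mem_singleton_iff] at hi
        subst hi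
        simpa [w] using hp
    · rintro ⟨i, hi⟩ ⟨j, hj⟩ hij
      have hij' : i ≠ j := fun h => hij (Subtype.ext h)
      rcases hi with rfl | hi <;> rcases hj with rfl | hj
      · exact absurd rfl hij'
      · rw [mem_singleton_iff] at hj
        subst hj
        simpa [w] using hup
      · rw [mem_singleton_iff] at hi
        subst hi
        simpa [w] using hpu
      · rw [mem_singleton_iff] at hi hj
        subst hi hj
        exact absurd rfl hij'
  obtain ⟨b, hb⟩ := h.exists_orthonormalBasis_extension_of_card_eq (by simp)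
  refine ⟨b, ?_, ?_⟩
  · rw [hb 0 (by simp)]; rfl
  · rw [hb 1 (by simp)]; rfl

theorem step {u p : E3} (hu : ‖u‖ = 1) (hup : inner ℝ u p = 0) {M : Set E3} (hM : IsCompact M)
    (hMc : Convex ℝ M) (hne : M.Nonempty) (hflat : ∀ m ∈ M, inner ℝ u m = 0) {t : ℝ} (ht : 0 ≤ t) :
    G (M + closedBall 0 t) p = G (M + Sg u 0 (2 * t)) p + Real.pi * t ^ 2 * ‖p‖ := by
  rcases eq_or_ne p 0 with hp0 | hp0
  · subst hp0
    unfold G
    rw [Sg_zero_vec, add_zero, add_zero]
    simp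
  have hpn : 0 < ‖p‖ := norm_pos_iff.2 hp0
  obtain ⟨v, hv0, hv1⟩ := exists_frame (u := u) (p := ‖p‖⁻¹ • p) hu
    (by rw [norm_smul, norm_inv, norm_norm, inv_mul_cancel₀ hpn.ne'])
    (by rw [inner_smul_right, hup, mul_zero])
  have hp : p = ‖p‖ • v 1 := by
    rw [hv1, smul_smul, mul_inv_cancel₀ hpn.ne', one_smul]
  have hrep : ∀ m ∈ M, m = inner ℝ (v 1) m • v 1 + inner ℝ (v 2) m • v 2 := by
    intro m hm
    have h1 := v.sum_repr' m
    rw [Fin.sum_univ_three, hv0, hflat m hm, zero_smul, zero_add] at h1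
    exact h1.symm
  -- the shadow
  have hNc : IsCompact ((fun m => inner ℝ (v 2) m) '' M) := hM.image (by fun_prop)
  have hNk : IsConnected ((fun m => inner ℝ (v 2) m) '' M) :=
    (hMc.isConnected hne).image _ (by fun_prop)
  have hN := eq_Icc_of_connected_compact hNk hNc
  set β0 := sInf ((fun m => inner ℝ (v 2) m) '' M) with hβ0
  set β1 := sSup ((fun m => inner ℝ (v 2) m) '' M) with hβ1
  have hβ : β0 ≤ β1 := by
    obtain ⟨m, hm⟩ := hne
    have : inner ℝ (v 2) m ∈ Icc β0 β1 := by rw [← hN]; exact ⟨m, hm, rfl⟩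
    exact this.1.trans this.2
  obtain ⟨C, hC⟩ := hM.isBounded.exists_norm_le
  obtain ⟨R, hR⟩ := exists_nat_ge (C / ‖p‖)
  have hbd : ∀ m ∈ M, |inner ℝ (v 1) m / ‖p‖| ≤ R := by
    intro m hm
    rw [abs_div, abs_of_pos hpn]
    refine le_trans ?_ hR
    apply div_le_div_of_nonneg_right _ hpn.le
    refine (abs_real_inner_le_norm _ _).trans ?_
    rw [v.norm_eq_one, one_mul]
    exact hC m hm
  have hdec : ∀ m ∈ M, m = (inner ℝ (v 2) m) • v 2 + (inner ℝ (v 1) m / ‖p‖) • p := by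
    intro m hm
    have h1 : (inner ℝ (v 1) m / ‖p‖) • p = inner ℝ (v 1) m • v 1 := by
      rw [hv1, smul_smul]; congr 1
    rw [h1]
    conv_lhs => rw [hrep m hm]
    rw [add_comm]
  have s1 : M ⊆ Sg (v 2) β0 β1 + Sg p (-R) R := by
    intro m hm
    have h1 : inner ℝ (v 2) m ∈ Icc β0 β1 := by rw [← hN]; exact ⟨m, hm, rfl⟩
    have h2 := abs_le.1 (hbd m hm)
    exact ⟨_, ⟨_, h1, rfl⟩, _, ⟨_, ⟨h2.1, h2.2⟩, rfl⟩, (hdec m hm).symm⟩
  have s2 : Sg (v 2) β0 β1 ⊆ M + Sg p (-R) R := by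
    rintro _ ⟨s, hs, rfl⟩
    rw [← hN] at hs
    obtain ⟨m, hm, rfl⟩ := hs
    have h2 := abs_le.1 (hbd m hm)
    refine ⟨m, hm, (-(inner ℝ (v 1) m / ‖p‖)) • p, ⟨-(inner ℝ (v 1) m / ‖p‖),
      ⟨by linarith [h2.2], by linarith [h2.1]⟩, rfl⟩, ?_⟩
    have h3 := hdec m hm
    simp only
    rw [neg_smul]
    nth_rewrite 1 [h3]
    abel
  set b := β1 - β0 with hb
  have hb0 : 0 ≤ b := by linarith
  have s3 : Sg (v 2) β0 β1 = Sg (b • v 2) 0 1 + {β0 • v 2} := by
    rw [Sg_smul _ hb0, ← Sg_shift]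
    congr 1
    · ring
    · rw [hb]; ring
  have hU : IsCompact (Sg u 0 (2 * t)) := Sg_compact _ _ _
  rw [G_eq_of_shadow hM hMc (Sg_compact (v 2) β0 β1) (Sg_convex _ _ _) p R s1 s2
      (isCompact_closedBall (0 : E3) t) (convex_closedBall _ _),
    G_eq_of_shadow hM hMc (Sg_compact (v 2) β0 β1) (Sg_convex _ _ _) p R s1 s2
      hU (Sg_convex _ _ _), s3]
  have e1 : ∀ X : Set E3, Sg (b • v 2) 0 1 + {β0 • v 2} + X = Sg (b • v 2) 0 1 + X + {β0 • v 2} := by
    intro X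
    exact add_right_comm _ _ _
  rw [e1, e1, G_translate, G_translate]
  have z0 : Sg ((0 : ℝ) • v 0) 0 1 = (0 : Set E3) := by rw [zero_smul, Sg_zero_vec]
  have z1 : Sg ((0 : ℝ) • v 1) 0 1 = (0 : Set E3) := by rw [zero_smul, Sg_zero_vec]
  have hp' : Sg p 0 1 = Sg (‖p‖ • v 1) 0 1 := by rw [← hp]
  have hu' : Sg u 0 (2 * t) = Sg ((2 * t) • v 0) 0 1 := by
    rw [Sg_smul _ (by linarith), hv0]
  have ht2 : (0 : ℝ) ≤ 2 * t := by linarith
  -- the four volumes
  have v1 := vol_frame v (a := 0) (b := ‖p‖) (c := b) (t := t) le_rfl hpn.le hb0 ht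
  have v2 := vol_frame v (a := 0) (b := 0) (c := b) (t := t) le_rfl le_rfl hb0 ht
  have v3 := vol_frame v (a := 2 * t) (b := ‖p‖) (c := b) (t := 0) ht2 hpn.le hb0 le_rfl
  have v4 := vol_frame v (a := 2 * t) (b := 0) (c := b) (t := 0) ht2 le_rfl hb0 le_rfl
  unfold fbox at v1 v2 v3 v4
  rw [z0, zero_add] at v1
  rw [z0, z1, zero_add, zero_add] at v2
  rw [closedBall_zero_eq, add_zero] at v3
  rw [closedBall_zero_eq, z1, add_zero, add_zero] at v4
  unfold G
  have f1 : Sg (b • v 2) 0 1 + closedBall 0 t + Sg p 0 1 =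
      Sg (‖p‖ • v 1) 0 1 + Sg (b • v 2) 0 1 + closedBall 0 t := by
    rw [hp', add_comm _ (Sg (‖p‖ • v 1) 0 1), ← add_assoc]
  have f3 : Sg (b • v 2) 0 1 + Sg u 0 (2 * t) + Sg p 0 1 =
      Sg ((2 * t) • v 0) 0 1 + Sg (‖p‖ • v 1) 0 1 + Sg (b • v 2) 0 1 := by
    rw [hp', hu', add_comm (Sg (b • v 2) 0 1), add_assoc, add_assoc,
      add_comm (Sg (b • v 2) 0 1)]
  have f4 : Sg (b • v 2) 0 1 + Sg u 0 (2 * t) = Sg ((2 * t) • v 0) 0 1 + Sg (b • v 2) 0 1 := by
    rw [hu', add_comm]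
  rw [f1, f3, f4, v1, v2, v3, v4, ka_one, ka_two]
  ring

end Pool.Agent.K7.H39.Cube
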