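import Pool.Agent.K7.H39.Cube.Shadow

/-!
# A lower bound for the shadows of the cube, and the inequality
-/

set_option autoImplicit false

open MeasureTheory Set Metric
open scoped Pointwise

namespace Pool.Agent.K7.H39.Cube

/-- the determinant of three vectors -/
def det3 (a b c : E3) : ℝ :=
  a 0 * (b 1 * c 2 - b 2 * c 1) - b 0 * (a 1 * c 2 - a 2 * c 1) + c 0 * (a 1 * b 2 - a 2 * b 1)

/-- the linear map with prescribed values on the standard basis -/
noncomputable def L3 (a b c : E3) : E3 →ₗ[ℝ] E3 :=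
  Matrix.toLin (EuclideanSpace.basisFun (Fin 3) ℝ).toBasis
    (EuclideanSpace.basisFun (Fin 3) ℝ).toBasis
    !![a 0, b 0, c 0; a 1, b 1, c 1; a 2, b 2, c 2]

theorem L3_det (a b c : E3) : LinearMap.det (L3 a b c) = det3 a b c := by
  unfold L3
  rw [LinearMap.det_toLin, Matrix.det_fin_three]
  simp only [Matrix.cons_val', Matrix.cons_val_zero, Matrix.cons_val_one, Matrix.cons_val,
    Matrix.of_apply, det3]
  ring

theorem L3_single (a b c : E3) (i : Fin 3) : L3 a b c (EuclideanSpace.single i 1) = ![a, b, c] i := by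
  have h := Matrix.toLin_self (EuclideanSpace.basisFun (Fin 3) ℝ).toBasis
    (EuclideanSpace.basisFun (Fin 3) ℝ).toBasis
    !![a 0, b 0, c 0; a 1, b 1, c 1; a 2, b 2, c 2] i
  have e : (EuclideanSpace.basisFun (Fin 3) ℝ).toBasis i = EuclideanSpace.single i (1 : ℝ) := by
    simp
  rw [e] at h
  unfold L3
  rw [h]
  ext j
  fin_cases i <;> fin_cases j <;> simp [Fin.sum_univ_three]

theorem vol_fbox (a b c : E3) : vol (fbox a b c) = |det3 a b c| := by
  have h : fbox a b c = (L3 a b c) '' Q := by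
    rw [Q_eq]
    unfold fbox
    rw [Set.image_add, Set.image_add, image_Sg, image_Sg, image_Sg, L3_single, L3_single, L3_single]
    rfl
  rw [h]
  unfold vol
  rw [Measure.addHaar_image_linearMap, ENNReal.toReal_mul, L3_det,
    ENNReal.toReal_ofReal (abs_nonneg _)]
  have : (volume Q).toReal = 1 := vol_Q
  rw [this, mul_one]

theorem G_ge_det {u : E3} {a b v : E3} (h : Sg a 0 1 + Sg b 0 1 + {v} ⊆ Q) :
    |det3 a b u| ≤ G Q u := by
  have hc : IsCompact (Sg a 0 1 + Sg b 0 1) := (Sg_compact _ _ _).add (Sg_compact _ _ _)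
  have hcc : Convex ℝ (Sg a 0 1 + Sg b 0 1) := (Sg_convex _ _ _).add (Sg_convex _ _ _)
  have h1 : G (Sg a 0 1 + Sg b 0 1 + {v}) u ≤ G Q u := by
    apply G_mono (hc.add isCompact_singleton) (hcc.add (convex_singleton _)) Q_compact Q_convex u 0
    intro x hx
    exact ⟨x, h hx, 0, ⟨0, by simp, by simp⟩, by simp⟩
  rw [G_translate] at h1
  have h2 : vol (Sg a 0 1 + Sg b 0 1) = 0 := by
    have := vol_fbox a b 0
    unfold fbox at this
    rw [Sg_zero_vec, add_zero] at this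
    rw [this]
    simp [det3]
  have h3 : vol (Sg a 0 1 + Sg b 0 1 + Sg u 0 1) = |det3 a b u| := vol_fbox a b u
  unfold G at h1
  rw [h2, h3, sub_zero] at h1
  exact h1

theorem G_ge {u : E3} : |u 0| + |u 1| ≤ G Q u ∧ |u 1| + |u 2| ≤ G Q u ∧ |u 2| + |u 0| ≤ G Q u := by
  have key : ∀ (a b v : E3), (∀ s t : ℝ, 0 ≤ s → s ≤ 1 → 0 ≤ t → t ≤ 1 → ∀ i : Fin 3,
      0 ≤ s * a i + t * b i + v i ∧ s * a i + t * b i + v i ≤ 1) →
      |det3 a b u| ≤ G Q u := by
    intro a b v h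
    apply G_ge_det (v := v)
    rintro _ ⟨_, ⟨_, ⟨s, hs, rfl⟩, _, ⟨t, ht, rfl⟩, rfl⟩, _, rfl, rfl⟩
    have := h s t hs.1 hs.2 ht.1 ht.2
    exact ⟨by simpa using this 0, by simpa using this 1, by simpa using this 2⟩
  have ab : ∀ x y g : ℝ, |x + y| ≤ g → |x - y| ≤ g → |x| + |y| ≤ g := by
    intro x y g h1 h2
    rw [abs_le] at h1 h2
    rcases abs_cases x with ⟨hx, _⟩ | ⟨hx, _⟩ <;> rcases abs_cases y with ⟨hy, _⟩ | ⟨hy, _⟩ <;>
      rw [hx, hy] <;> linarith [h1.1, h1.2, h2.1, h2.2]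
  have sol : ∀ (a b v : Fin 3 → ℝ) (x : ℝ), (∀ s t : ℝ, 0 ≤ s → s ≤ 1 → 0 ≤ t → t ≤ 1 → ∀ i : Fin 3,
      0 ≤ s * a i + t * b i + v i ∧ s * a i + t * b i + v i ≤ 1) →
      |det3 (WithLp.toLp 2 a) (WithLp.toLp 2 b) u| = |x| → |x| ≤ G Q u := by
    intro a b v x h hx
    rw [← hx]
    exact key (WithLp.toLp 2 a) (WithLp.toLp 2 b) (WithLp.toLp 2 v) h
  refine ⟨?_, ?_, ?_⟩
  · apply ab
    · refine sol ![0, 0, 1] ![1, -1, 0] ![0, 1, 0] _ ?_ ?_
      · intro s t hs hs' ht ht' i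
        fin_cases i <;> simp <;> constructor <;> linarith
      · congr 1; simp [det3]; ring
    · refine sol ![0, 0, 1] ![1, 1, 0] ![0, 0, 0] _ ?_ ?_
      · intro s t hs hs' ht ht' i
        fin_cases i <;> simp <;> constructor <;> linarith
      · rw [← abs_neg (u 0 - u 1)]; congr 1; simp [det3]; ring
  · apply ab
    · refine sol ![1, 0, 0] ![0, 1, -1] ![0, 0, 1] _ ?_ ?_
      · intro s t hs hs' ht ht' i
        fin_cases i <;> simp <;> constructor <;> linarith
      · congr 1; simp [det3]; ring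
    · refine sol ![1, 0, 0] ![0, 1, 1] ![0, 0, 0] _ ?_ ?_
      · intro s t hs hs' ht ht' i
        fin_cases i <;> simp <;> constructor <;> linarith
      · rw [← abs_neg (u 1 - u 2)]; congr 1; simp [det3]
  · apply ab
    · refine sol ![0, 1, 0] ![-1, 0, 1] ![1, 0, 0] _ ?_ ?_
      · intro s t hs hs' ht ht' i
        fin_cases i <;> simp <;> constructor <;> linarith
      · congr 1; simp [det3]
    · refine sol ![0, 1, 0] ![1, 0, 1] ![0, 0, 0] _ ?_ ?_
      · intro s t hs hs' ht ht' i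
        fin_cases i <;> simp <;> constructor <;> linarith
      · rw [← abs_neg (u 2 - u 0)]; congr 1; simp [det3]; ring

theorem aux_s {s : ℝ} (h1 : 1 ≤ s) (h2 : s ≤ 12 / 11) : (1 + s + 1 / 5) ^ 2 ≤ 5.5 * s := by
  norm_num
  nlinarith

theorem aux_b {a b c : ℝ} (hc : 0 ≤ c) (hcb : c ≤ b) (hba : b ≤ a)
    (h : a ^ 2 + b ^ 2 + c ^ 2 = 1) (hlt : (a + b) ^ 2 < (12 / 11) ^ 2) : b ≤ 1 / 5 := by
  have hb0 : 0 ≤ b := hc.trans hcb
  have ha0 : 0 ≤ a := hb0.trans hba
  have hcb2 : c ^ 2 ≤ b ^ 2 := by gcongr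
  have hba2 : b ^ 2 ≤ a ^ 2 := by gcongr
  have hs2 : (a + b) ^ 2 = 1 - c ^ 2 + 2 * (a * b) := by linear_combination h
  by_contra hcon
  push Not at hcon
  have h7 : b * (2 * a - b) < 23 / 121 := by
    have e : b * (2 * a - b) = 2 * (a * b) - b ^ 2 := by ring
    rw [e]
    norm_num at hlt
    linarith
  rcases le_or_gt b (2 / 5) with hb | hb
  · have h8 : (4 / 5 : ℝ) ≤ a := by
      by_contra h9
      push Not at h9
      have h10 : a ^ 2 < (4 / 5) ^ 2 := by gcongr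
      have h11 : b ^ 2 ≤ (2 / 5) ^ 2 := by gcongr
      norm_num at h10 h11
      linarith
    have h9 : (1 / 5 : ℝ) * (6 / 5) ≤ b * (2 * a - b) :=
      mul_le_mul hcon.le (by linarith) (by norm_num) hb0
    norm_num at h9
    linarith
  · have h8 : (57 / 100 : ℝ) ≤ a := by
      by_contra h9
      push Not at h9
      have h10 : a ^ 2 < (57 / 100) ^ 2 := by gcongr
      norm_num at h10
      linarith
    have h9 : (2 / 5 : ℝ) * (57 / 100) ≤ b * (2 * a - b) :=
      mul_le_mul hb.le (by linarith) (by norm_num) hb0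
    norm_num at h9
    linarith

theorem aux_prod {a b c x y : ℝ} (ha : 0 ≤ a) (hb : 0 ≤ b) (hc : 0 ≤ c)
    (h : a ^ 2 + b ^ 2 + c ^ 2 = 1) (ex : x ^ 2 = 1 - a ^ 2) (ey : y ^ 2 = 1 - b ^ 2) :
    x * y ≤ c + a * b := by
  have h1 : (x * y) ^ 2 = c ^ 2 + (a * b) ^ 2 := by
    rw [mul_pow, ex, ey]; linear_combination -h
  have h2 : (x * y) ^ 2 ≤ (c + a * b) ^ 2 := by
    have : 0 ≤ c * (a * b) := by positivity
    have e : (c + a * b) ^ 2 = c ^ 2 + (a * b) ^ 2 + 2 * (c * (a * b)) := by ring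
    rw [h1, e]
    linarith
  exact le_of_sq_le_sq h2 (by positivity)

/-- The elementary inequality, for ordered coordinates. -/
theorem ineq_ord {a b c x y z m : ℝ} (hc : 0 ≤ c) (hcb : c ≤ b) (hba : b ≤ a)
    (hx : 0 ≤ x) (hy : 0 ≤ y) (hz : 0 ≤ z) (h : a ^ 2 + b ^ 2 + c ^ 2 = 1)
    (ex : x ^ 2 = 1 - a ^ 2) (ey : y ^ 2 = 1 - b ^ 2) (ez : z ^ 2 = 1 - c ^ 2)
    (hm : a + b ≤ m) : (x + y + z) ^ 2 ≤ 5.5 * m := by
  have h6 : (x + y + z) ^ 2 ≤ 6 := by
    nlinarith [sq_nonneg (x - y), sq_nonneg (y - z), sq_nonneg (z - x)]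
  by_cases hm2 : 12 / 11 ≤ m
  · norm_num; linarith
  push Not at hm2
  have hb0 : 0 ≤ b := hc.trans hcb
  have ha0 : 0 ≤ a := hb0.trans hba
  have hm1 : 1 ≤ a + b := by
    by_contra hcon
    push Not at hcon
    have hs2 : (a + b) ^ 2 = 1 - c ^ 2 + 2 * (a * b) := by linear_combination h
    have h1 : c * c ≤ a * b := mul_le_mul (hcb.trans hba) hcb hc ha0
    have h2 : 0 ≤ a * b := by positivity
    have h3 : (a + b) ^ 2 < 1 ^ 2 := by gcongr
    nlinarith
  have hlt : (a + b) ^ 2 < (12 / 11) ^ 2 := by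
    have : a + b < 12 / 11 := by linarith
    gcongr
  have hb5 : b ≤ 1 / 5 := aux_b hc hcb hba h hlt
  have hxy : x * y ≤ c + a * b := aux_prod ha0 hb0 hc h ex ey
  have hyz : y * z ≤ a + b * c := aux_prod hb0 hc ha0 (by linarith) ey ez
  have hzx : z * x ≤ b + c * a := aux_prod hc ha0 hb0 (by linarith) ez ex
  have h3 : (x + y + z) ^ 2 ≤ (1 + a + b + c) ^ 2 := by
    have e1 : (x + y + z) ^ 2 = 2 + 2 * (x * y + y * z + z * x) := by
      linear_combination ex + ey + ez - h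
    have e2 : (1 + a + b + c) ^ 2 = 2 + 2 * ((c + a * b) + (a + b * c) + (b + c * a)) := by
      linear_combination h
    rw [e1, e2]
    linarith
  have h4 : 1 + a + b + c ≤ 1 + (a + b) + 1 / 5 := by linarith
  have h5 : (1 + a + b + c) ^ 2 ≤ (1 + (a + b) + 1 / 5) ^ 2 := by gcongr
  have hab : a + b ≤ 12 / 11 := by linarith
  have h8 := aux_s hm1 hab
  have h9 : (5.5 : ℝ) * (a + b) ≤ 5.5 * m := mul_le_mul_of_nonneg_left hm (by norm_num)
  exact h3.trans (h5.trans (h8.trans h9))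

theorem ineq {a b c x y z m : ℝ} (ha : 0 ≤ a) (hb : 0 ≤ b) (hc : 0 ≤ c)
    (hx : 0 ≤ x) (hy : 0 ≤ y) (hz : 0 ≤ z) (h : a ^ 2 + b ^ 2 + c ^ 2 = 1)
    (ex : x ^ 2 = 1 - a ^ 2) (ey : y ^ 2 = 1 - b ^ 2) (ez : z ^ 2 = 1 - c ^ 2)
    (h1 : a + b ≤ m) (h2 : b + c ≤ m) (h3 : c + a ≤ m) : (x + y + z) ^ 2 ≤ 5.5 * m := by
  rcases le_total a b with hab | hab <;> rcases le_total b c with hbc | hbc <;>
    rcases le_total a c with hac | hac
  · have := ineq_ord (a := c) (b := b) (c := a) (m := m) ha hab hbc hz hy hx (by linarith) ez ey ex (by linarith)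
    calc _ = (z + y + x) ^ 2 := by ring
      _ ≤ _ := this
  · have := ineq_ord (a := c) (b := b) (c := a) (m := m) ha hab hbc hz hy hx (by linarith) ez ey ex (by linarith)
    calc _ = (z + y + x) ^ 2 := by ring
      _ ≤ _ := this
  · have := ineq_ord (a := b) (b := c) (c := a) (m := m) ha hac hbc hy hz hx (by linarith) ey ez ex (by linarith)
    calc _ = (y + z + x) ^ 2 := by ring
      _ ≤ _ := this
  · have := ineq_ord (a := b) (b := a) (c := c) (m := m) hc hac hab hy hx hz (by linarith) ey ex ez (by linarith)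
    calc _ = (y + x + z) ^ 2 := by ring
      _ ≤ _ := this
  · have := ineq_ord (a := c) (b := a) (c := b) (m := m) hb hab hac hz hx hy (by linarith) ez ex ey (by linarith)
    calc _ = (z + x + y) ^ 2 := by ring
      _ ≤ _ := this
  · have := ineq_ord (a := a) (b := c) (c := b) (m := m) hb hbc hac hx hz hy (by linarith) ex ez ey (by linarith)
    calc _ = (x + z + y) ^ 2 := by ring
      _ ≤ _ := this
  · have := ineq_ord (a := c) (b := a) (c := b) (m := m) hb hab hac hz hx hy (by linarith) ez ex ey (by linarith)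
    calc _ = (z + x + y) ^ 2 := by ring
      _ ≤ _ := this
  · have := ineq_ord (a := a) (b := b) (c := c) (m := m) hc hbc hab hx hy hz (by linarith) ex ey ez (by linarith)
    exact this

end Pool.Agent.K7.H39.Cube
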