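import Pool.Agent.K7.H39.Cube.Flat

/-!
# The projections of the cube
-/

set_option autoImplicit false

open MeasureTheory Set Metric
open scoped Pointwise

namespace Pool.Agent.K7.H39.Cube

/-- the unit cube -/
def Q : Set E3 := bx 1 1 1

theorem Q_eq : Q = fbox (EuclideanSpace.single 0 1) (EuclideanSpace.single 1 1)
    (EuclideanSpace.single 2 1) := by
  unfold Q
  rw [bx_eq zero_le_one zero_le_one zero_le_one, one_smul, one_smul, one_smul]

theorem fbox_compact (p q r : E3) : IsCompact (fbox p q r) :=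
  ((Sg_compact _ _ _).add (Sg_compact _ _ _)).add (Sg_compact _ _ _)

theorem fbox_convex (p q r : E3) : Convex ℝ (fbox p q r) :=
  ((Sg_convex _ _ _).add (Sg_convex _ _ _)).add (Sg_convex _ _ _)

theorem Q_compact : IsCompact Q := by rw [Q_eq]; exact fbox_compact _ _ _

theorem Q_convex : Convex ℝ Q := by rw [Q_eq]; exact fbox_convex _ _ _

theorem vol_Q_add_ball {t : ℝ} (ht : 0 ≤ t) :
    vol (Q + closedBall 0 t) = 1 + 6 * t + 3 * Real.pi * t ^ 2 + ka 3 * t ^ 3 := by
  unfold Q
  rw [vol_bx_add_ball zero_le_one zero_le_one zero_le_one ht, ka_one, ka_two]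
  ring

theorem vol_Q : vol Q = 1 := by
  have := vol_Q_add_ball (t := 0) le_rfl
  rw [closedBall_zero_eq, add_zero] at this
  rw [this]
  ring

theorem vol_ball {t : ℝ} (ht : 0 ≤ t) : vol (closedBall 0 t) = ka 3 * t ^ 3 := by
  have h := vol_bx_add_ball (a := 0) (b := 0) (c := 0) le_rfl le_rfl le_rfl ht
  rw [bx_eq le_rfl le_rfl le_rfl] at h
  simp only [zero_smul] at h
  unfold fbox at h
  rw [Sg_zero_vec, add_zero, add_zero, zero_add] at h
  rw [h]
  ring

theorem vol_flat {u : E3} (hu : ‖u‖ = 1) {M : Set E3} (hflat : ∀ m ∈ M, inner ℝ u m = 0) :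
    vol M = 0 := by
  unfold vol
  have h1 : M ⊆ ((innerSL ℝ u).toLinearMap.ker : Submodule ℝ E3) := by
    intro m hm
    simpa using hflat m hm
  have h2 : ((innerSL ℝ u).toLinearMap.ker : Submodule ℝ E3) ≠ ⊤ := by
    intro h
    have : u ∈ ((innerSL ℝ u).toLinearMap.ker : Submodule ℝ E3) := by rw [h]; trivial
    simp at this
    rw [this] at hu
    simp at hu
  have h3 := Measure.addHaar_submodule volume _ h2
  rw [measure_mono_null h1 h3]
  rfl

theorem Sg_flat {u p : E3} (h : inner ℝ u p = 0) {a b : ℝ} : ∀ m ∈ Sg p a b, inner ℝ u m = 0 := by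
  rintro _ ⟨s, -, rfl⟩
  simp only
  rw [inner_smul_right, h, mul_zero]

theorem add_flat {u : E3} {M N : Set E3} (hM : ∀ m ∈ M, inner ℝ u m = 0)
    (hN : ∀ m ∈ N, inner ℝ u m = 0) : ∀ m ∈ M + N, inner ℝ u m = 0 := by
  rintro _ ⟨m, hm, n, hn, rfl⟩
  simp only
  rw [inner_add_right, hM m hm, hN n hn, add_zero]

theorem Sg_nonempty (p : E3) : (Sg p 0 1).Nonempty := ⟨_, 0, ⟨le_rfl, zero_le_one⟩, rfl⟩

/-- The parallel body of a flat zonotope. -/
theorem vol_flat_add_ball {u p q r : E3} (hu : ‖u‖ = 1) (hp : inner ℝ u p = 0)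
    (hq : inner ℝ u q = 0) (hr : inner ℝ u r = 0) {t : ℝ} (ht : 0 ≤ t) :
    vol (fbox p q r + closedBall 0 t) = vol (fbox p q r + Sg u 0 (2 * t)) +
      Real.pi * t ^ 2 * (‖p‖ + ‖q‖ + ‖r‖) + ka 3 * t ^ 3 := by
  have e : ∀ (M C : Set E3) (p : E3), vol (M + Sg p 0 1 + C) = vol (M + C) + G (M + C) p := by
    intro M C p
    unfold G
    rw [add_right_comm M (Sg p 0 1) C]
    ring
  have hz : ∀ m ∈ (0 : Set E3), inner ℝ u m = 0 := by
    intro m hm
    have : m = 0 := hm
    rw [this, inner_zero_right]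
  have k1 := step hu hp (M := 0) isCompact_singleton (convex_singleton _) ⟨0, rfl⟩ hz ht
  have k2 := step hu hq (M := 0 + Sg p 0 1) (isCompact_singleton.add (Sg_compact _ _ _))
    ((convex_singleton _).add (Sg_convex _ _ _)) (Set.Nonempty.add ⟨0, rfl⟩ (Sg_nonempty p))
    (add_flat hz (Sg_flat hp)) ht
  have k3 := step hu hr (M := 0 + Sg p 0 1 + Sg q 0 1)
    ((isCompact_singleton.add (Sg_compact _ _ _)).add (Sg_compact _ _ _))
    (((convex_singleton _).add (Sg_convex _ _ _)).add (Sg_convex _ _ _))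
    (Set.Nonempty.add (Set.Nonempty.add (⟨0, rfl⟩ : (0 : Set E3).Nonempty) (Sg_nonempty p))
      (Sg_nonempty q))
    (add_flat (add_flat hz (Sg_flat hp)) (Sg_flat hq)) ht
  have hU : vol (Sg u 0 (2 * t)) = 0 := by
    obtain ⟨w, hw, huw⟩ : ∃ w : E3, ‖w‖ = 1 ∧ inner ℝ w u = 0 := by
      -- a unit vector orthogonal to `u`
      by_contra hcon
      push Not at hcon
      have h1 : ∀ w : E3, inner ℝ w u = 0 → w = 0 := by
        intro w hw
        by_contra hw0
        have hpos : 0 < ‖w‖ := norm_pos_iff.2 hw0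
        apply hcon (‖w‖⁻¹ • w)
        · rw [norm_smul, norm_inv, norm_norm, inv_mul_cancel₀ hpos.ne']
        · rw [real_inner_smul_left, hw, mul_zero]
      set a : E3 := WithLp.toLp 2 ![-(u 1), u 0, 0] with ha
      set b : E3 := WithLp.toLp 2 ![0, -(u 2), u 1] with hb
      have ia : inner ℝ a u = 0 := by
        simp [PiLp.inner_apply, Fin.sum_univ_three, ha]
        ring
      have ib : inner ℝ b u = 0 := by
        simp [PiLp.inner_apply, Fin.sum_univ_three, hb]
        ring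
      have ea := h1 a ia
      have eb := h1 b ib
      have a0 := congrArg (fun x : E3 => x 0) ea
      have a1 := congrArg (fun x : E3 => x 1) ea
      have b1 := congrArg (fun x : E3 => x 1) eb
      simp [ha] at a0 a1
      simp [hb] at b1
      have : u = 0 := by
        ext i
        fin_cases i
        · simpa using a1
        · simpa using a0
        · simpa using b1
      rw [this] at hu
      simp at hu
    exact vol_flat hw (Sg_flat huw)
  unfold fbox
  have f1 : vol (Sg p 0 1 + Sg q 0 1 + Sg r 0 1 + closedBall 0 t) =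
      vol ((0 : Set E3) + closedBall 0 t) + G ((0 : Set E3) + closedBall 0 t) p +
        G ((0 : Set E3) + Sg p 0 1 + closedBall 0 t) q +
          G ((0 : Set E3) + Sg p 0 1 + Sg q 0 1 + closedBall 0 t) r := by
    rw [← e, ← e, ← e, zero_add]
  have f2 : vol (Sg p 0 1 + Sg q 0 1 + Sg r 0 1 + Sg u 0 (2 * t)) =
      vol ((0 : Set E3) + Sg u 0 (2 * t)) + G ((0 : Set E3) + Sg u 0 (2 * t)) p +
        G ((0 : Set E3) + Sg p 0 1 + Sg u 0 (2 * t)) q +
          G ((0 : Set E3) + Sg p 0 1 + Sg q 0 1 + Sg u 0 (2 * t)) r := by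
    rw [← e, ← e, ← e, zero_add]
  rw [f1, f2, k1, k2, k3]
  have h0 : vol ((0 : Set E3) + closedBall 0 t) = ka 3 * t ^ 3 := by
    rw [zero_add, vol_ball ht]
  have h1 : vol ((0 : Set E3) + Sg u 0 (2 * t)) = 0 := by
    rw [zero_add, hU]
  rw [h0, h1]
  ring

/-- the projection onto the orthogonal complement of a unit vector -/
noncomputable def P (u : E3) : E3 →ₗ[ℝ] E3 :=
  LinearMap.id - (innerSL ℝ u).toLinearMap.smulRight u

theorem P_apply (u x : E3) : P u x = x - (inner ℝ u x) • u := by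
  simp [P]

theorem inner_P {u : E3} (hu : ‖u‖ = 1) (x : E3) : inner ℝ u (P u x) = 0 := by
  rw [P_apply, inner_sub_right, inner_smul_right, real_inner_self_eq_norm_sq, hu]
  ring

theorem norm_P_single {u : E3} (hu : ‖u‖ = 1) (i : Fin 3) :
    ‖P u (EuclideanSpace.single i 1)‖ ^ 2 = 1 - u i ^ 2 := by
  rw [P_apply, ← real_inner_self_eq_norm_sq, inner_sub_left, inner_sub_right, inner_sub_right,
    real_inner_smul_left, real_inner_smul_left, inner_smul_right, inner_smul_right,
    real_inner_self_eq_norm_sq, real_inner_self_eq_norm_sq, hu]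
  have h1 : inner ℝ u (EuclideanSpace.single i (1 : ℝ)) = u i := by
    rw [real_inner_comm, EuclideanSpace.inner_single_left]; simp
  have h2 : inner ℝ (EuclideanSpace.single i (1 : ℝ)) u = u i := by
    rw [EuclideanSpace.inner_single_left]; simp
  rw [h1, h2, EuclideanSpace.norm_single]
  simp
  ring

/-- the projection of the cube -/
theorem image_Q (u : E3) : (P u) '' Q = fbox (P u (EuclideanSpace.single 0 1))
    (P u (EuclideanSpace.single 1 1)) (P u (EuclideanSpace.single 2 1)) := by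
  rw [Q_eq]
  unfold fbox
  rw [← image_Sg, ← image_Sg, ← image_Sg]
  rw [Set.image_add, Set.image_add]

theorem Q_norm {x : E3} (hx : x ∈ Q) : ‖x‖ ≤ 2 := by
  obtain ⟨⟨h1, h2⟩, ⟨h3, h4⟩, h5, h6⟩ := hx
  have h := EuclideanSpace.real_norm_sq_eq x
  rw [Fin.sum_univ_three] at h
  nlinarith [norm_nonneg x]

theorem shadow_bound {u : E3} (hu : ‖u‖ = 1) {x : E3} (hx : x ∈ Q) : |inner ℝ u x| ≤ 2 := by
  refine (abs_real_inner_le_norm _ _).trans ?_
  rw [hu, one_mul]
  exact Q_norm hx

theorem G_shadow {u : E3} (hu : ‖u‖ = 1) : G Q u = G ((P u) '' Q) u := by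
  have hc : IsCompact ((P u) '' Q) := by rw [image_Q]; exact fbox_compact _ _ _
  have hcc : Convex ℝ ((P u) '' Q) := by rw [image_Q]; exact fbox_convex _ _ _
  apply le_antisymm
  · apply G_mono Q_compact Q_convex hc hcc u 2
    intro x hx
    have h := abs_le.1 (shadow_bound hu hx)
    refine ⟨P u x, ⟨x, hx, rfl⟩, _, ⟨inner ℝ u x, ⟨by push_cast; linarith [h.1], by push_cast; linarith [h.2]⟩, rfl⟩, ?_⟩
    simp only [P_apply]
    abel
  · apply G_mono hc hcc Q_compact Q_convex u 2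
    rintro _ ⟨x, hx, rfl⟩
    have h := abs_le.1 (shadow_bound hu hx)
    refine ⟨x, hx, _, ⟨-inner ℝ u x, ⟨by push_cast; linarith [h.2], by push_cast; linarith [h.1]⟩, rfl⟩, ?_⟩
    simp only [P_apply, neg_smul]
    abel

/-- The prism over the shadow. -/
theorem vol_prism {u : E3} (hu : ‖u‖ = 1) (n : ℕ) (hn : 0 < n) :
    vol ((P u) '' Q + Sg u 0 (2 * (1 / n))) = 2 * (1 / n) * G Q u := by
  have hc : IsCompact ((P u) '' Q) := by rw [image_Q]; exact fbox_compact _ _ _
  have hcc : Convex ℝ ((P u) '' Q) := by rw [image_Q]; exact fbox_convex _ _ _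
  have hflat : ∀ m ∈ (P u) '' Q, inner ℝ u m = 0 := by
    rintro _ ⟨x, -, rfl⟩
    exact inner_P hu x
  have h0 := vol_flat hu hflat
  have hn' : (0 : ℝ) < n := by exact_mod_cast hn
  have h1 := vol_add_Sg hc hcc ((1 / n : ℝ) • u) 2
  have h2 := vol_add_Sg hc hcc ((1 / n : ℝ) • u) n
  have e : ∀ m : ℝ, 0 ≤ m → Sg ((1 / n : ℝ) • u) 0 m = Sg u 0 (m * (1 / n)) := by
    intro m hm
    rw [← Sg_smul _ hm, smul_smul, Sg_smul _ (by positivity)]
  rw [e _ (by positivity), h0, zero_add] at h1 h2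
  have e2 : (n : ℝ) * (1 / n) = 1 := by field_simp
  rw [e2] at h2
  have h3 : G Q u = vol ((P u) '' Q + Sg u 0 1) := by
    rw [G_shadow hu]
    unfold G
    rw [h0, sub_zero]
  rw [h3, h2]
  have e3 : ((2 : ℕ) : ℝ) = 2 := by norm_num
  rw [e3] at h1
  rw [h1]
  field_simp

/-- The volume of the parallel body of the projection. -/
theorem vol_proj_add_ball {u : E3} (hu : ‖u‖ = 1) (n : ℕ) (hn : 0 < n) :
    vol ((P u) '' Q + closedBall 0 (1 / n : ℝ)) = 2 * (1 / n) * G Q u +
      Real.pi * (1 / n) ^ 2 * (‖P u (EuclideanSpace.single 0 1)‖ +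
        ‖P u (EuclideanSpace.single 1 1)‖ + ‖P u (EuclideanSpace.single 2 1)‖) +
      ka 3 * (1 / n) ^ 3 := by
  rw [← vol_prism hu n hn]
  rw [image_Q]
  exact vol_flat_add_ball hu (inner_P hu _) (inner_P hu _) (inner_P hu _) (by positivity)

end Pool.Agent.K7.H39.Cube
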